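import Pool.Agent.helper63.NU.Defs4
import Pool.Agent.helper63.NU.Stub.A1
import Pool.Agent.helper63.NU.Stub.A2
import Pool.Agent.helper63.NU.Stub.A7
import Pool.Agent.helper63.NU.Stub.A8
import Pool.Agent.helper63.NU.Stub.B3
import Pool.Agent.helper63.NU.Stub.B4
import Pool.Agent.helper2.NU.B5

set_option autoImplicit false
set_option linter.all false

/-! Module M2d: equality in the Bochner inequality. -/

open MeasureTheory Filter Topology Set
open scoped ContDiff Manifold Matrix ENNReal ComplexOrder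

noncomputable section

namespace Pool.Agent.helper63.NU

namespace M2d

variable {n : ℕ}

theorem factor {Θ : Matrix (Fin n) (Fin n) ℂ} (hΘ : Θ.PosDef) :
    ∃ R : Matrix (Fin n) (Fin n) ℂ, Θ⁻¹ = Rᴴ * R := by
  have h := hΘ.inv.posSemidef
  open scoped MatrixOrder Matrix.Norms.L2Operator in
  exact CStarAlgebra.nonneg_iff_eq_star_mul_self.mp h.nonneg

/-- strictness in `q_nonneg` -/
theorem q_zero {Θ : Matrix (Fin n) (Fin n) ℂ} (hΘ : Θ.PosDef) {B : Matrix (Fin n) (Fin n) ℂ}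
    (hs : ∀ k l, ∑ j, Θ j l * B j k = ∑ j, Θ j k * B j l)
    (h0 : (∑ j, ∑ k, B j k * (starRingEnd ℂ) (B k j)).re = 0) : B = 0 := by
  have hmi : Θ * Θ⁻¹ = 1 := Matrix.mul_nonsing_inv Θ ((Matrix.isUnit_iff_isUnit_det Θ).mp hΘ.isUnit)
  have him : Θ⁻¹ * Θ = 1 := Matrix.nonsing_inv_mul Θ ((Matrix.isUnit_iff_isUnit_det Θ).mp hΘ.isUnit)
  obtain ⟨R, hR⟩ := factor hΘ
  obtain ⟨C, hC⟩ : ∃ C : Matrix (Fin n) (Fin n) ℂ, C = Θᵀ * B := ⟨_, rfl⟩
  have hCs : Cᵀ = C := by
    ext k l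
    rw [Matrix.transpose_apply, hC, Matrix.mul_apply, Matrix.mul_apply]
    simp only [Matrix.transpose_apply]
    exact hs k l
  have hB : B = Rᵀ * Rᴴᵀ * C := by
    rw [← Matrix.transpose_mul, ← hR, hC, ← Matrix.mul_assoc, ← Matrix.transpose_mul,
      hmi, Matrix.transpose_one, Matrix.one_mul]
  have hCh : Cᴴᵀ = Cᴴ := by
    ext i j
    have := congrFun (congrFun hCs i) j
    rw [Matrix.transpose_apply] at this
    simp [Matrix.conjTranspose_apply, this]
  have hBt : Bᴴᵀ = Rᴴ * R * Cᴴ := by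
    rw [hB, Matrix.conjTranspose_mul, Matrix.conjTranspose_mul, Matrix.transpose_mul,
      Matrix.transpose_mul, hCh]
    have e2 : Rᴴᵀᴴᵀ = R := by
      ext i j; simp
    have e3 : Rᵀᴴᵀ = Rᴴ := by
      ext i j; simp
    rw [e2, e3]
  have h1 : ∑ j, ∑ k, B j k * (starRingEnd ℂ) (B k j)
      = ((Rᴴᵀ * C * Rᴴ) * (Rᴴᵀ * C * Rᴴ)ᴴ).trace := by
    have h2 : ∑ j, ∑ k, B j k * (starRingEnd ℂ) (B k j) = (B * Bᴴᵀ).trace := by
      simp only [Matrix.trace, Matrix.diag, Matrix.mul_apply, Matrix.transpose_apply,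
        Matrix.conjTranspose_apply]
      rfl
    have h3 : (Rᴴᵀ * C * Rᴴ)ᴴ = R * Cᴴ * Rᵀ := by
      have e2 : Rᴴᵀᴴ = Rᵀ := by
        ext i j; simp
      rw [Matrix.conjTranspose_mul, Matrix.conjTranspose_mul, Matrix.conjTranspose_conjTranspose,
        Matrix.mul_assoc, e2]
    rw [h2, hBt, h3, hB]
    rw [Matrix.mul_assoc Rᵀ, Matrix.mul_assoc Rᵀ, Matrix.trace_mul_comm]
    simp only [Matrix.mul_assoc]
  have hnn := (Matrix.posSemidef_self_mul_conjTranspose (Rᴴᵀ * C * Rᴴ)).trace_nonneg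
  rw [h1] at h0
  have htr : ((Rᴴᵀ * C * Rᴴ) * (Rᴴᵀ * C * Rᴴ)ᴴ).trace = 0 := by
    have := Complex.le_def.1 hnn
    apply Complex.ext
    · exact h0
    · exact this.2.symm
  have hX : Rᴴᵀ * C * Rᴴ = 0 := Matrix.trace_mul_conjTranspose_self_eq_zero_iff.1 htr
  have hBR : B * Rᴴ = 0 := by
    calc B * Rᴴ = Rᵀ * (Rᴴᵀ * C * Rᴴ) := by rw [hB]; simp only [Matrix.mul_assoc]
      _ = 0 := by rw [hX, Matrix.mul_zero]
  calc B = B * (Θ⁻¹ * Θ) := by rw [him, Matrix.mul_one]
    _ = (B * Rᴴ) * (R * Θ) := by rw [hR]; simp only [Matrix.mul_assoc]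
    _ = 0 := by rw [hBR, Matrix.zero_mul]

theorem two_le_inf : (2 : WithTop ℕ∞) ≤ ((⊤ : ℕ∞) : WithTop ℕ∞) :=
  WithTop.coe_le_coe.2 (le_top : (2 : ℕ∞) ≤ ⊤)

theorem diffAt {U : Set (E n)} (hU : IsOpen U) {f : E n → ℂ} (hf : ContDiffOn ℝ ∞ f U) {y : E n}
    (hy : y ∈ U) : DifferentiableAt ℝ f y :=
  (hf.contDiffAt (hU.mem_nhds hy)).differentiableAt (by simp)

theorem qf_zero {U : Set (E n)} (hU : IsOpen U) {ψ : E n → ℝ} (hψ : ContDiffOn ℝ ∞ ψ U)
    (hp : ∀ y ∈ U, (lev ψ y).PosDef) {f : E n → ℂ} (hf : ContDiffOn ℝ ∞ f U) {y : E n}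
    (hy : y ∈ U) (h0 : (qf ψ f f y).re = 0) (j k : Fin n) :
    db k (fun z => rs (lev ψ z) (dbv f z) j) y = 0 := by
  have key : ∀ k l, ∑ j, lev ψ y j l * db k (fun z => rs (lev ψ z) (dbv f z) j) y =
      db k (db l f) y - ∑ j, db k (fun z => lev ψ z j l) y * rs (lev ψ y) (dbv f y) j := by
    intro k l
    have h1 : (fun z => ∑ j, lev ψ z j l * rs (lev ψ z) (dbv f z) j) =ᶠ[𝓝 y] db l f := by
      filter_upwards [hU.mem_nhds hy] with z hz
      exact sum_mul_rs (hp z hz) (dbv f z) l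
    have h2 := db_congr h1 k
    rw [db_sum Finset.univ (f := fun j z => lev ψ z j l * rs (lev ψ z) (dbv f z) j)
      (fun j _ => ((diffAt hU (contDiffOn_lev hU hψ j l) hy).mul
      (diffAt hU (contDiffOn_rs hU hψ hp hf j) hy)))] at h2
    rw [← h2, ← Finset.sum_sub_distrib]
    refine Finset.sum_congr rfl (fun j _ => ?_)
    rw [db_mul (diffAt hU (contDiffOn_lev hU hψ j l) hy)
      (diffAt hU (contDiffOn_rs hU hψ hp hf j) hy)]
    ring
  have hB := q_zero (Θ := lev ψ y) (hp y hy)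
    (B := Matrix.of fun j k => db k (fun z => rs (lev ψ z) (dbv f z) j) y) (by
      intro k l
      simp only [Matrix.of_apply]
      rw [key k l, key l k]
      have h3 : db k (db l f) y = db l (db k f) y :=
        db_db_comm ((hf.contDiffAt (hU.mem_nhds hy)).of_le two_le_inf) k l
      rw [h3]
      congr 1
      refine Finset.sum_congr rfl (fun j _ => ?_)
      rw [db_lev_symm hU hψ hy j l k]) (by
      simp only [Matrix.of_apply]
      exact h0)
  exact congrFun (congrFun hB j) k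

end M2d

variable {n : ℕ} {M : Type*} [TopologicalSpace M] [ChartedSpace (E n) M]
  [IsManifold 𝓘(ℂ, E n) ω M] [CompactSpace M] [T2Space M] [MeasurableSpace M] [BorelSpace M]
  {φ : Fam n M ℝ} {μ : Measure M}

/-- equality in the Bochner inequality -/
theorem eig_hol (hφ : IsPos 1 φ) (hμ : IsDens μ φ) {v : M → ℂ} (hv : Sm n v)
    (hbox : ∀ e ∈ atlas (E n) M, ∀ y ∈ e.target,
      bx (φ e) (fun z => v (e.symm z)) y = v (e.symm y)) :
    ∀ e ∈ atlas (E n) M, ∀ j, DifferentiableOn ℂ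
      (fun y => rs (lev (φ e) y) (dbv (fun z => v (e.symm z)) y) j) e.target := by
  have hw : IsWeight 1 φ := hφ.toIsWeight
  haveI : IsFiniteMeasure μ := isFiniteMeasure_of_isDens hw hμ
  haveI : μ.IsOpenPosMeasure := isOpenPosMeasure_of_isDens hw hμ
  have hφ' : IsPos (0 + 1) φ := hφ
  obtain ⟨s, hsdef⟩ : ∃ s : Fam n M ℂ, s = fun e y => v (e.symm y) := ⟨_, rfl⟩
  have hs : IsSec 0 s := by
    refine ⟨fun e he => ?_, fun e he e' he' x hx => ?_⟩
    · rw [hsdef]; exact hv e he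
    · rw [hsdef]
      simp only [pow_zero, one_mul]
      rw [e.left_inv hx.1, e'.left_inv hx.2]
  have hbs : ∀ e ∈ atlas (E n) M, ∀ y ∈ e.target, bx (φ e) (s e) y = s e y := by
    intro e he y hy
    rw [hsdef]; exact hbox e he y hy
  have hch : ∀ x : M, chartAt (E n) x ∈ atlas (E n) M ∧
      chartAt (E n) x x ∈ (chartAt (E n) x).target := fun x =>
    ⟨chart_mem_atlas _ x, mem_chart_target _ x⟩
  -- the global Bochner identity
  have h1 : ip μ φ φ (box φ s) (box φ s) = ∫ x, fn φ (fun e y =>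
      (cn (lev (φ e) y) (dbv (s e) y) (dbv (s e) y) + qf (φ e) (s e) (s e) y) *
      (Real.exp (-φ e y) : ℂ)) x ∂μ :=
    B5.global hw hμ (B5.loc_P2 hφ' hs) (B5.loc_Q2 hφ' hs)
      (fun e he u hu hc hsu => bochner_local e.open_target (hφ.smooth e he) (hφ.pos e he)
        (hs.smooth e he) hu hc hsu) hs
  have hi1 : Integrable (fn φ (en φ s s)) μ :=
    (continuous_fn hw (en_isDen hφ' hs hs)
      ((B5.loc_Q1 hφ' hs).cont s hs)).integrable_of_hasCompactSupport
      (HasCompactSupport.of_compactSpace _)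
  have hcq : Continuous (fn φ (qd φ s s)) := by
    refine continuous_fn hw (qd_isDen hφ' hs hs) ?_
    intro e he
    exact (B5.continuousOn_qf e.open_target (hφ.smooth e he) (hφ.pos e he)
      (hs.smooth e he) (hs.smooth e he)).mul
      (B5.contDiffOn_exp_neg (hφ.smooth e he)).continuousOn
  have hi2 : Integrable (fn φ (qd φ s s)) μ :=
    hcq.integrable_of_hasCompactSupport (HasCompactSupport.of_compactSpace _)
  have h2 : ∀ x, fn φ (fun e y =>
      (cn (lev (φ e) y) (dbv (s e) y) (dbv (s e) y) + qf (φ e) (s e) (s e) y) *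
      (Real.exp (-φ e y) : ℂ)) x = fn φ (en φ s s) x + fn φ (qd φ s s) x := by
    intro x
    unfold fn en qd qf
    ring
  simp_rw [h2] at h1
  rw [integral_add hi1 hi2] at h1
  -- `box s = s`
  have h3 : ip μ φ φ (box φ s) (box φ s) = ip μ φ φ (box φ s) s := by
    unfold ip
    refine integral_congr_ae (Eventually.of_forall fun x => ?_)
    show fn φ (pr φ (box φ s) (box φ s)) x = fn φ (pr φ (box φ s) s) x
    unfold fn pr box
    rw [hbs _ (hch x).1 _ (hch x).2]
  have h4 : ip μ φ φ (box φ s) s = dp μ φ φ s s := ip_box hw hμ hφ' hs hs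
  have h5 : dp μ φ φ s s = ∫ x, fn φ (en φ s s) x ∂μ := rfl
  have h6 : ∫ x, fn φ (qd φ s s) x ∂μ = 0 := by
    rw [h3, h4, h5] at h1
    exact left_eq_add.1 h1
  have hre : ∀ x, 0 ≤ (fn φ (qd φ s s) x).re := by
    intro x
    have h5 := qf_self_nonneg (chartAt (E n) x).open_target (hφ.smooth _ (chart_mem_atlas _ x))
      (hφ.pos _ (chart_mem_atlas _ x)) (hs.smooth _ (chart_mem_atlas _ x)) (mem_chart_target _ x)
    show 0 ≤ (fn φ (qd φ s s) x).re
    unfold fn qd
    rw [mul_assoc, ← Complex.ofReal_mul, Complex.re_mul_ofReal]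
    exact mul_nonneg h5 (by positivity)
  have h7 : ∫ x, (fn φ (qd φ s s) x).re ∂μ = 0 := by
    have h8 : (∫ x, fn φ (qd φ s s) x ∂μ).re = ∫ x, (fn φ (qd φ s s) x).re ∂μ :=
      (integral_re hi2).symm
    rw [← h8, h6]; rfl
  have hcr : Continuous fun x => (fn φ (qd φ s s) x).re := Complex.continuous_re.comp hcq
  have h9 : (fun x => (fn φ (qd φ s s) x).re) = fun _ => 0 := by
    have h10 := (integral_eq_zero_iff_of_nonneg (fun x => hre x) hi2.re).1 h7
    exact hcr.ae_eq_iff_eq μ continuous_const |>.1 h10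
  intro e he j
  refine hol_of_db e.open_target
    ((contDiffOn_rs e.open_target (hφ.smooth e he) (hφ.pos e he) (hv e he) j).differentiableOn
      (by simp)) ?_
  intro y hy k
  refine M2d.qf_zero e.open_target (hφ.smooth e he) (hφ.pos e he) (hv e he) hy ?_ j k
  have h11 := congrFun h9 (e.symm y)
  have h12 := fn_eq hw (qd_isDen hφ' hs hs) he (e.map_target hy)
  rw [h12, e.right_inv hy] at h11
  unfold qd at h11
  rw [mul_assoc, ← Complex.ofReal_mul, Complex.re_mul_ofReal] at h11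
  have h13 : Real.exp (-φ e y) * Real.exp (φ e y) ≠ 0 := by positivity
  have h14 := (mul_eq_zero.1 h11).resolve_right h13
  rw [hsdef] at h14
  exact h14

end Pool.Agent.helper63.NU
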